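import Mathlib

set_option autoImplicit false

/-!
# MP_394e0d_co: triple arrays with parameters `((q + 1) × q ^ 2, q (q + 1))`

They exist for every prime power `q > 2`.
-/

namespace Pool.Agent.Results.MP_394e0d_co.AllPrimePowersH53

open Function

/-- `A` is a triple array with rows `R`, columns `C`, symbols `V` and constants
`e`, `λ_rc`, `λ_rr`, `λ_cc`. -/
structure IsTripleArray {R C V : Type} (A : R → C → V) (e lrc lrr lcc : ℕ) : Prop where
  /-- no symbol occurs twice in a row -/
  row : ∀ i, Injective (A i)
  /-- no symbol occurs twice in a column -/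
  col : ∀ j, Injective (fun i => A i j)
  /-- every symbol occurs `e` times -/
  occ : ∀ s : V, {p : R × C | A p.1 p.2 = s}.ncard = e
  /-- a row and a column share `λ_rc` symbols -/
  rc : ∀ i j, (Set.range (A i) ∩ Set.range (fun i' => A i' j)).ncard = lrc
  /-- two rows share `λ_rr` symbols -/
  rr : ∀ i i', i ≠ i' → (Set.range (A i) ∩ Set.range (A i')).ncard = lrr
  /-- two columns share `λ_cc` symbols -/
  cc : ∀ j j', j ≠ j' →
    (Set.range (fun i => A i j) ∩ Set.range (fun i => A i j')).ncard = lcc

/-- an `(r × c, v)`-triple array exists -/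
def HasTripleArray (r c v : ℕ) : Prop :=
  ∃ (A : Fin r → Fin c → Fin v) (e lrc lrr lcc : ℕ), IsTripleArray A e lrc lrr lcc

/-- renaming rows, columns and symbols -/
theorem IsTripleArray.congr {R C V R' C' V' : Type} {A : R → C → V} {e lrc lrr lcc : ℕ}
    (h : IsTripleArray A e lrc lrr lcc) (f : R' ≃ R) (g : C' ≃ C) (k : V ≃ V') :
    IsTripleArray (fun i j => k (A (f i) (g j))) e lrc lrr lcc := by
  have hrow : ∀ i, Set.range (fun j => k (A (f i) (g j))) = k '' Set.range (A (f i)) := by
    intro i
    ext s
    constructor
    · rintro ⟨j, rfl⟩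
      exact ⟨_, ⟨g j, rfl⟩, rfl⟩
    · rintro ⟨_, ⟨j, rfl⟩, rfl⟩
      exact ⟨g.symm j, by simp⟩
  have hcol : ∀ j, Set.range (fun i => k (A (f i) (g j))) = k '' Set.range (fun i => A i (g j)) := by
    intro j
    ext s
    constructor
    · rintro ⟨i, rfl⟩
      exact ⟨_, ⟨f i, rfl⟩, rfl⟩
    · rintro ⟨_, ⟨i, rfl⟩, rfl⟩
      exact ⟨f.symm i, by simp⟩
  constructor
  · intro i j j' hj
    exact g.injective (h.row (f i) (k.injective hj))
  · intro j i i' hi
    exact f.injective (h.col (g j) (k.injective hi))
  · intro s
    rw [← h.occ (k.symm s)]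
    have : {p : R' × C' | k (A (f p.1) (g p.2)) = s} =
        (f.prodCongr g) ⁻¹' {p : R × C | A p.1 p.2 = k.symm s} := by
      ext p
      simp [Equiv.eq_symm_apply]
    rw [this, Set.ncard_preimage_of_injective_subset_range (f.prodCongr g).injective]
    intro x _
    exact (f.prodCongr g).surjective x
  · intro i j
    rw [hrow, hcol, ← Set.image_inter k.injective, Set.ncard_image_of_injective _ k.injective]
    exact h.rc _ _
  · intro i i' hi
    rw [hrow, hrow, ← Set.image_inter k.injective, Set.ncard_image_of_injective _ k.injective]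
    exact h.rr _ _ (fun hh => hi (f.injective hh))
  · intro j j' hj
    rw [hcol, hcol, ← Set.image_inter k.injective, Set.ncard_image_of_injective _ k.injective]
    exact h.cc _ _ (fun hh => hj (g.injective hh))

section general

variable {K : Type}

/-- Points are pairs `p : K × K`, directions are elements `d : Option K` (`none` is the vertical
direction), lines are pairs `(d, c)`, and `p` lies on `(d, off p d)`. A labelling assigns to the
point `p` and the line of direction `d` through `p` a label `lab p d`. -/
structure IsLabelling (off : K × K → Option K → K) (lab : K × K → Option K → Option K)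
    (om : Option K → Option K) : Prop where
  /-- two points lie on exactly one line -/
  join : ∀ p p' : K × K, p ≠ p' → ∃ d, {d | off p d = off p' d} = {d}
  /-- the labels at a point are distinct -/
  point : ∀ p, Injective (lab p)
  /-- the labels on a line are distinct -/
  line : ∀ d p p', off p d = off p' d → lab p d = lab p' d → p = p'
  /-- the lines of direction `d` omit the label `om d` -/
  omit_label : ∀ p d, lab p d ≠ om d
  /-- different directions omit different labels -/
  om_inj : Injective om

variable [Finite K] {off : K × K → Option K → K} {lab : K × K → Option K → Option K}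
  {om : Option K → Option K}

theorem exists_array (h : IsLabelling off lab om) :
    ∃ A : Option K → K × K → Option K × K,
      IsTripleArray A (Nat.card K) (Nat.card K) (Nat.card K * (Nat.card K - 1)) 1 := by
  have hsurj : ∀ p, Surjective (lab p) := fun p => Finite.injective_iff_surjective.1 (h.point p)
  choose sl hsl using hsurj
  -- the line through `p` labelled `i`
  have sl_lab : ∀ p d, sl p (lab p d) = d := fun p d => h.point p (hsl p (lab p d))
  let A : Option K → K × K → Option K × K := fun i p => (sl p i, off p (sl p i))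
  have hrow : ∀ i, Injective (A i) := by
    intro i p p' hp
    simp only [A, Prod.mk.injEq] at hp
    obtain ⟨h1, h3⟩ := hp
    apply h.line (sl p i) p p'
    · rw [h3, h1]
    · rw [hsl, h1, hsl]
  have om_surj : Surjective om := Finite.injective_iff_surjective.1 h.om_inj
  have hrange : ∀ i, Set.range (A i) = {s : Option K × K | om s.1 ≠ i} := by
    intro i
    apply Set.eq_of_subset_of_ncard_le
    · rintro _ ⟨p, rfl⟩ hp
      have := h.omit_label p (sl p i)
      rw [hsl] at this
      exact this hp.symm
    · have e1 : (Set.range (A i)).ncard = Nat.card K * Nat.card K := by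
        rw [← Set.image_univ, Set.ncard_image_of_injective _ (hrow i), Set.ncard_univ,
          Nat.card_prod]
      obtain ⟨d, rfl⟩ := om_surj i
      have e2 : {s : Option K × K | om s.1 ≠ om d} = ({d}ᶜ : Set (Option K)) ×ˢ Set.univ := by
        ext s
        simp [h.om_inj.eq_iff]
      rw [e1, e2, Set.ncard_prod, Set.ncard_univ, Set.ncard_compl, Set.ncard_singleton]
      rw [Finite.card_option]
      simp
    · exact Set.toFinite _
  have hcol : ∀ p, Set.range (fun i => A i p) = Set.range (fun d : Option K => (d, off p d)) := by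
    intro p
    ext s
    constructor
    · rintro ⟨i, rfl⟩
      exact ⟨sl p i, rfl⟩
    · rintro ⟨d, rfl⟩
      refine ⟨lab p d, ?_⟩
      simp only [A, sl_lab]
  have graph_inj : ∀ p, Injective (fun d : Option K => (d, off p d)) := by
    intro p a b hab
    simp only [Prod.mk.injEq] at hab
    exact hab.1
  refine ⟨A, hrow, ?_, ?_, ?_, ?_, ?_⟩
  · intro p i j hij
    simp only [A, Prod.mk.injEq] at hij
    have := congrArg (lab p) hij.1
    rwa [hsl, hsl] at this
  · intro s
    have e1 : (Prod.fst '' {x : Option K × (K × K) | A x.1 x.2 = s}) = {om s.1}ᶜ := by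
      ext i
      constructor
      · rintro ⟨x, hx, rfl⟩
        have : s ∈ Set.range (A x.1) := ⟨x.2, hx⟩
        rw [hrange] at this
        exact fun hh => this hh.symm
      · intro hi
        have : s ∈ Set.range (A i) := by
          rw [hrange]
          exact fun hh => hi hh.symm
        obtain ⟨p, hp⟩ := this
        exact ⟨(i, p), hp, rfl⟩
    have e2 : Set.InjOn Prod.fst {x : Option K × (K × K) | A x.1 x.2 = s} := by
      rintro ⟨i, p⟩ hx ⟨j, p'⟩ hx' hij
      simp only at hij
      subst hij
      have : p = p' := hrow i (Eq.trans hx (Eq.symm hx'))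
      rw [this]
    rw [← e2.ncard_image, e1, Set.ncard_compl, Set.ncard_singleton, Finite.card_option]
    simp
  · intro i p
    obtain ⟨d0, rfl⟩ := om_surj i
    have : Set.range (A (om d0)) ∩ Set.range (fun i' => A i' p) =
        (fun d : Option K => (d, off p d)) '' {d0}ᶜ := by
      rw [hrange, hcol]
      ext s
      constructor
      · rintro ⟨h1, ⟨d, rfl⟩⟩
        exact ⟨d, fun hh => h1 (congrArg om hh), rfl⟩
      · rintro ⟨d, h1, rfl⟩
        exact ⟨fun hh => h1 (h.om_inj hh), ⟨d, rfl⟩⟩
    rw [this, Set.ncard_image_of_injective _ (graph_inj p), Set.ncard_compl,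
      Set.ncard_singleton, Finite.card_option]
    simp
  · intro i i' hi
    obtain ⟨d, rfl⟩ := om_surj i
    obtain ⟨d', rfl⟩ := om_surj i'
    have hdd : d ≠ d' := fun hh => hi (congrArg om hh)
    have : Set.range (A (om d)) ∩ Set.range (A (om d')) =
        ({d, d'}ᶜ : Set (Option K)) ×ˢ Set.univ := by
      rw [hrange, hrange]
      ext s
      simp [h.om_inj.eq_iff]
    rw [this, Set.ncard_prod, Set.ncard_univ, Set.ncard_compl, Set.ncard_pair hdd,
      Finite.card_option, mul_comm]
    rfl
  · intro p p' hp
    obtain ⟨d, hd⟩ := h.join p p' hp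
    have : Set.range (fun i => A i p) ∩ Set.range (fun i => A i p') =
        (fun d : Option K => (d, off p d)) '' {d | off p d = off p' d} := by
      rw [hcol, hcol]
      ext s
      constructor
      · rintro ⟨⟨d, rfl⟩, ⟨d', h'⟩⟩
        simp only [Prod.mk.injEq] at h'
        obtain ⟨rfl, h'⟩ := h'
        exact ⟨d', h'.symm, rfl⟩
      · rintro ⟨d, h1, rfl⟩
        exact ⟨⟨d, rfl⟩, ⟨d, by
          simp only [Prod.mk.injEq, true_and]
          exact Eq.symm h1⟩⟩
    rw [this, Set.ncard_image_of_injective _ (graph_inj p), hd, Set.ncard_singleton]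

end general

section oddCase

variable {K : Type} [Field K]

/-- the vertical lines are `X = c`, the others are the parabolas `2 y + X ^ 2 = n X + c` -/
def offO (p : K × K) : Option K → K
  | none => p.1
  | some n => 2 * p.2 + p.1 ^ 2 - n * p.1

open Classical in
/-- the labels for odd `q` -/
noncomputable def labO (p : K × K) : Option K → Option K
  | none => some (p.2 - p.1)
  | some n => if n = 2 * p.1 then none else if n = p.2 then some p.1 else some (n - p.1)

/-- the label that a direction omits, for odd `q` -/
def omO : Option K → Option K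
  | none => none
  | some n => some (n / 2)

theorem isLabelling_odd (h2 : (2 : K) ≠ 0) : IsLabelling (offO (K := K)) labO omO := by
  constructor
  · rintro ⟨X, y⟩ ⟨X', y'⟩ hp
    by_cases h : X = X'
    · subst h
      refine ⟨none, ?_⟩
      ext d
      rcases d with _ | n
      · simp [offO]
      · simp only [offO, Set.mem_ofPred_eq, Set.mem_singleton_iff, reduceCtorEq, iff_false]
        intro hh
        apply hp
        rw [mul_left_cancel₀ h2 (show 2 * y = 2 * y' by linear_combination hh)]
    · have hd : X - X' ≠ 0 := sub_ne_zero.2 h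
      refine ⟨some ((2 * y + X ^ 2 - (2 * y' + X' ^ 2)) / (X - X')), ?_⟩
      ext d
      rcases d with _ | n
      · simp only [offO, Set.mem_ofPred_eq, Set.mem_singleton_iff, reduceCtorEq, iff_false]
        exact h
      · simp only [offO, Set.mem_ofPred_eq, Set.mem_singleton_iff, Option.some.injEq]
        rw [eq_div_iff hd]
        constructor
        · intro hh
          linear_combination -hh
        · intro hh
          linear_combination -hh
  · rintro ⟨X, y⟩ i j h
    rcases i with _ | s <;> rcases j with _ | t
    · rfl
    · exfalso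
      simp only [labO] at h
      grind
    · exfalso
      simp only [labO] at h
      grind
    · simp only [labO] at h
      grind
  · rintro d ⟨X, y⟩ ⟨X', y'⟩ h h'
    rcases d with _ | n
    · simp only [offO] at h
      simp only [labO] at h'
      grind
    · simp only [offO] at h
      simp only [labO] at h'
      have key : X = X' → (X, y) = (X', y') := by
        intro hX
        subst hX
        rw [mul_left_cancel₀ h2 (show 2 * y = 2 * y' by linear_combination h)]
      apply key
      split_ifs at h' with h3 h4 h5 h6 h7 h8 h9 h10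
      · exact mul_left_cancel₀ h2 (h3.symm.trans h4)
      · exact Option.some.inj h'
      · exfalso
        have e := Option.some.inj h'
        have : 2 * n = 2 * y' := by
          subst e
          linear_combination h + 2 * h6
        exact h8 (mul_left_cancel₀ h2 this)
      · exfalso
        have e := Option.some.inj h'
        have : 2 * n = 2 * y := by
          subst e
          linear_combination -h + 2 * h10
        exact h6 (mul_left_cancel₀ h2 this)
      · have e := Option.some.inj h'
        linear_combination -e
  · rintro ⟨X, y⟩ d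
    rcases d with _ | n
    · simp [labO, omO]
    · simp only [labO, omO]
      have e : 2 * (n / 2) = n := by field_simp
      split_ifs with h3 h4
      · simp
      · intro h
        have := Option.some.inj h
        apply h3
        rw [this, e]
      · intro h
        have := Option.some.inj h
        apply h3
        linear_combination 2 * this + e
  · intro i j h
    rcases i with _ | i <;> rcases j with _ | j <;>
      simp only [omO, Option.some.injEq, reduceCtorEq] at h
    · rfl
    · rw [(div_left_inj' h2).1 h]

end oddCase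

section evenCase

variable {K : Type} [Field K]

/-- the vertical lines are `a = c`, the others are `κ u ^ 2 + (1 + κ) s a = c` -/
def offE (κ : K) (p : K × K) : Option K → K
  | none => p.1
  | some s => κ * p.2 ^ 2 + (1 + κ) * s * p.1

open Classical in
/-- the labels for even `q`; here `κ` is a fixed element different from `0` and `1` -/
noncomputable def labE (κ : K) (p : K × K) : Option K → Option K
  | none =>
    if p.1 ≠ 0 ∧ p.2 = (1 + κ) * p.1 then some (κ * p.1)
    else if p.1 ≠ 0 ∧ p.2 = p.1 then some (κ * (κ * p.1))
    else some (p.1 + (1 + κ) * p.2)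
  | some s =>
    if s = 0 then (if p.1 = 0 then none else if p.2 = 0 then some (κ * p.1) else some p.1)
    else if (s = p.1 ∧ p.2 ≠ p.1) ∨ (p.2 = p.1 ∧ s = κ * p.1) then none
    else if (s = p.1 + p.2 ∧ p.2 ≠ 0 ∧ p.2 ≠ (1 + κ) * p.1) ∨ (p.2 = p.1 ∧ s = p.1) then
      some (κ * p.1)
    else some ((1 + κ) * s + κ * p.1)

theorem labE_inj (h2 : (2 : K) = 0) (κ : K) (k0 : κ ≠ 0) (k1 : κ ≠ 1) (p : K × K) :
    Function.Injective (labE κ p) := by
  obtain ⟨a, u⟩ := p
  intro i j h
  rcases i with _ | s <;> rcases j with _ | t
  · rfl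
  · exfalso
    simp only [labE] at h
    by_cases ha : a = 0
    · subst ha
      grind
    · grind
  · exfalso
    simp only [labE] at h
    by_cases ha : a = 0
    · subst ha
      grind
    · grind
  · simp only [labE] at h
    by_cases ha : a = 0
    · subst ha
      grind
    · grind

theorem labE_ne (h2 : (2 : K) = 0) (κ : K) (k0 : κ ≠ 0) (p : K × K) (d : Option K) :
    labE κ p d ≠ d := by
  obtain ⟨a, u⟩ := p
  rcases d with _ | s
  · simp only [labE]
    grind
  · simp only [labE]
    grind

theorem sq_inj (h2 : (2 : K) = 0) {x y : K} (hxy : x ^ 2 = y ^ 2) : x = y := by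
  have : (x - y) ^ 2 = 0 := by linear_combination hxy - (x * y - y ^ 2) * h2
  exact sub_eq_zero.1 ((pow_eq_zero_iff two_ne_zero).1 this)

/-- two points on a line of slope `s ≠ 0`, one of them labelled `∞` for the first reason, the other
for the second reason -/
theorem caseA (h2 : (2 : K) = 0) {κ : K} (k0 : κ ≠ 0) {s a' u : K}
    (h : κ * u ^ 2 + (1 + κ) * s * s = κ * a' ^ 2 + (1 + κ) * s * a') (hs : s = κ * a') :
    u = s := by
  apply sq_inj h2
  have : κ * (κ * (u ^ 2 - s ^ 2)) = 0 := by
    subst hs
    linear_combination κ * h + (κ ^ 2 * a' ^ 2 - κ^4 * a'^2 ) * h2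
  rcases mul_eq_zero.1 this with h | h
  · exact absurd h k0
  · rcases mul_eq_zero.1 h with h | h
    · exact absurd h k0
    · exact sub_eq_zero.1 h

/-- the label `κ a` at one point, the generic label at the other point -/
theorem caseB (h2 : (2 : K) = 0) {κ : K} (k0 : κ ≠ 0) {s a u a' u' : K}
    (h : κ * u ^ 2 + (1 + κ) * s * a = κ * u' ^ 2 + (1 + κ) * s * a')
    (hl : κ * a = (1 + κ) * s + κ * a') (hu : u = a + s) : u' = a' + s := by
  apply sq_inj h2
  have : κ ^ 2 * u' ^ 2 = κ ^ 2 * (a' + s) ^ 2 := by grind
  exact mul_left_cancel₀ (pow_ne_zero 2 k0) this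
theorem caseBC (h2 : (2 : K) = 0) {κ : K} (k0 : κ ≠ 0) {s a u a' u' : K} (hs : s ≠ 0)
    (h : κ * u ^ 2 + (1 + κ) * s * a = κ * u' ^ 2 + (1 + κ) * s * a')
    (hB : (s = a + u ∧ u ≠ 0 ∧ u ≠ (1 + κ) * a) ∨ (u = a ∧ s = a))
    (hA' : ¬ ((s = a' ∧ u' ≠ a') ∨ (u' = a' ∧ s = κ * a')))
    (hB' : ¬ ((s = a' + u' ∧ u' ≠ 0 ∧ u' ≠ (1 + κ) * a') ∨ (u' = a' ∧ s = a')))
    (hl : κ * a = (1 + κ) * s + κ * a') : False := by
  rcases hB with ⟨h3, h4, h5⟩ | ⟨h3, h4⟩
  · have hu : u = a + s := by grind
    have hu' := caseB h2 k0 h hl hu
    have hs' : s = a' + u' := by grind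
    by_cases h6 : u' = 0
    · apply hA'
      left
      rw [h6] at hs' ⊢
      refine ⟨by rw [hs', add_zero], fun h7 => hs ?_⟩
      rw [hs', ← h7, add_zero]
    · have h7 : u' = (1 + κ) * a' := by
        by_contra h7
        exact hB' (Or.inl ⟨hs', h6, h7⟩)
      have h8 : s = κ * a' := by grind
      have h9 : κ * a = κ * s := by grind
      have h10 : a = s := mul_left_cancel₀ k0 h9
      apply h4
      grind
  · subst h3
    subst h4
    have h5 : s = κ * a' := by grind
    apply hA'
    right
    refine ⟨?_, h5⟩
    apply sq_inj h2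
    have : κ ^ 2 * u' ^ 2 = κ ^ 2 * a' ^ 2 := by grind
    exact mul_left_cancel₀ (pow_ne_zero 2 k0) this

theorem labE_line (h2 : (2 : K) = 0) (κ : K) (k0 : κ ≠ 0) (k1 : κ ≠ 1) (d : Option K)
    (p p' : K × K) (h : offE κ p d = offE κ p' d) (h' : labE κ p d = labE κ p' d) : p = p' := by
  obtain ⟨a, u⟩ := p
  obtain ⟨a', u'⟩ := p'
  rcases d with _ | s
  · simp only [offE] at h
    subst h
    simp only [labE] at h'
    have : u = u' := by grind
    rw [this]
  · simp only [offE] at h
    have key : a = a' → (a, u) = (a', u') := by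
      intro ha
      subst ha
      have : κ * u ^ 2 = κ * u' ^ 2 := by linear_combination h
      rw [sq_inj h2 (mul_left_cancel₀ k0 this)]
    apply key
    simp only [labE] at h'
    by_cases hs : s = 0
    · subst hs
      have hu : u = u' := sq_inj h2 (mul_left_cancel₀ k0 (by linear_combination h))
      subst hu
      grind
    · rw [if_neg hs, if_neg hs] at h'
      by_cases hA : (s = a ∧ u ≠ a) ∨ (u = a ∧ s = κ * a)
      · by_cases hA' : (s = a' ∧ u' ≠ a') ∨ (u' = a' ∧ s = κ * a')
        · rcases hA with ⟨h3, h4⟩ | ⟨h3, h4⟩ <;> rcases hA' with ⟨h5, h6⟩ | ⟨h5, h6⟩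
          · rw [← h3, ← h5]
          · exfalso
            subst h3 h5
            exact h4 (caseA h2 k0 h h6)
          · exfalso
            subst h3 h5
            exact h6 (caseA h2 k0 h.symm h4)
          · exact mul_left_cancel₀ k0 (h4.symm.trans h6)
        · exfalso
          rw [if_pos hA, if_neg hA'] at h'
          split_ifs at h'
      · by_cases hA' : (s = a' ∧ u' ≠ a') ∨ (u' = a' ∧ s = κ * a')
        · exfalso
          rw [if_neg hA, if_pos hA'] at h'
          split_ifs at h'
        · rw [if_neg hA, if_neg hA'] at h'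
          by_cases hB : (s = a + u ∧ u ≠ 0 ∧ u ≠ (1 + κ) * a) ∨ (u = a ∧ s = a)
          · by_cases hB' : (s = a' + u' ∧ u' ≠ 0 ∧ u' ≠ (1 + κ) * a') ∨ (u' = a' ∧ s = a')
            · rw [if_pos hB, if_pos hB'] at h'
              exact mul_left_cancel₀ k0 (Option.some.inj h')
            · exfalso
              rw [if_pos hB, if_neg hB'] at h'
              exact caseBC h2 k0 hs h hB hA' hB' (Option.some.inj h')
          · by_cases hB' : (s = a' + u' ∧ u' ≠ 0 ∧ u' ≠ (1 + κ) * a') ∨ (u' = a' ∧ s = a')
            · exfalso
              rw [if_neg hB, if_pos hB'] at h'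
              exact caseBC h2 k0 hs h.symm hB' hA hB (Option.some.inj h').symm
            · rw [if_neg hB, if_neg hB'] at h'
              exact mul_left_cancel₀ k0 (add_left_cancel (Option.some.inj h'))

theorem isLabelling_even (h2 : (2 : K) = 0) {κ : K} (k0 : κ ≠ 0) (k1 : κ ≠ 1) :
    IsLabelling (offE κ) (labE κ) id := by
  have k2 : 1 + κ ≠ 0 := by
    intro h
    apply k1
    linear_combination h - h2
  constructor
  · rintro ⟨a, u⟩ ⟨a', u'⟩ hp
    by_cases h : a = a'
    · subst h
      refine ⟨none, ?_⟩
      ext d
      rcases d with _ | n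
      · simp [offE]
      · simp only [offE, Set.mem_ofPred_eq, Set.mem_singleton_iff, reduceCtorEq, iff_false]
        intro hh
        apply hp
        have : κ * u ^ 2 = κ * u' ^ 2 := by linear_combination hh
        rw [sq_inj h2 (mul_left_cancel₀ k0 this)]
    · have hd : a - a' ≠ 0 := sub_ne_zero.2 h
      refine ⟨some (κ * (u' ^ 2 - u ^ 2) / ((1 + κ) * (a - a'))), ?_⟩
      ext d
      rcases d with _ | n
      · simp only [offE, Set.mem_ofPred_eq, Set.mem_singleton_iff, reduceCtorEq, iff_false]
        exact h
      · simp only [offE, Set.mem_ofPred_eq, Set.mem_singleton_iff, Option.some.injEq]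
        rw [eq_div_iff (mul_ne_zero k2 hd)]
        constructor
        · intro hh
          linear_combination hh
        · intro hh
          linear_combination hh
  · exact labE_inj h2 κ k0 k1
  · exact labE_line h2 κ k0 k1
  · exact labE_ne h2 κ k0
  · exact injective_id

end evenCase

theorem array_of_labelling {K : Type} [Field K] [Finite K] {off : K × K → Option K → K}
    {lab : K × K → Option K → Option K} {om : Option K → Option K}
    (h : IsLabelling off lab om) {q : ℕ} (hq : Nat.card K = q) :
    ∃ A : Fin (q + 1) → Fin (q ^ 2) → Fin (q * (q + 1)),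
      IsTripleArray A q q (q * (q - 1)) 1 := by
  have := Fintype.ofFinite K
  have c1 : Fintype.card K = q := by rw [← Nat.card_eq_fintype_card, hq]
  obtain ⟨A, hA⟩ := exists_array h
  rw [hq] at hA
  let f : Fin (q + 1) ≃ Option K := (Fintype.equivFinOfCardEq (by simp [c1])).symm
  let g : Fin (q ^ 2) ≃ K × K := (Fintype.equivFinOfCardEq (by simp [c1, sq])).symm
  let k : Option K × K ≃ Fin (q * (q + 1)) :=
    Fintype.equivFinOfCardEq (by simp [c1, mul_comm])
  exact ⟨_, hA.congr f g k⟩

theorem main : ∀ q : ℕ, IsPrimePow q → 2 < q →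
    ∃ A : Fin (q + 1) → Fin (q ^ 2) → Fin (q * (q + 1)),
      IsTripleArray A q q (q * (q - 1)) 1 := by
  intro q hq hq2
  obtain ⟨p, n, hp, hn, rfl⟩ := (isPrimePow_nat_iff q).1 hq
  have : Fact p.Prime := ⟨hp⟩
  let K := GaloisField p n
  have hcard : Nat.card K = p ^ n := GaloisField.card p n hn.ne'
  have hfin : Finite K := Nat.finite_of_card_ne_zero (by rw [hcard]; omega)
  by_cases h2 : (2 : K) = 0
  · -- an element different from `0` and `1`
    obtain ⟨κ, hκ⟩ : ∃ κ : K, κ ∉ ({0, 1} : Set K) := by
      by_contra hcon
      push Not at hcon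
      have hu : (Set.univ : Set K) ⊆ {0, 1} := fun x _ => hcon x
      have h3 := Set.ncard_le_ncard hu (Set.toFinite _)
      rw [Set.ncard_univ, hcard] at h3
      have h4 : ({0, 1} : Set K).ncard ≤ 2 := by
        have := Set.ncard_insert_le (0 : K) {1}
        rwa [Set.ncard_singleton] at this
      omega
    simp only [Set.mem_insert_iff, Set.mem_singleton_iff, not_or] at hκ
    exact array_of_labelling (isLabelling_even h2 hκ.1 hκ.2) hcard
  · exact array_of_labelling (isLabelling_odd h2) hcard

theorem result :
    -- for every prime power `q > 2` there is a triple array with the stated constants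
    (∀ q : ℕ, IsPrimePow q → 2 < q →
      ∃ A : Fin (q + 1) → Fin (q ^ 2) → Fin (q * (q + 1)),
        IsTripleArray A q q (q * (q - 1)) 1) ∧
    -- in particular a triple array with these parameters exists
    (∀ q : ℕ, IsPrimePow q → 2 < q → HasTripleArray (q + 1) (q ^ 2) (q * (q + 1))) := by
  refine ⟨main, fun q hq h2 => ?_⟩
  obtain ⟨A, hA⟩ := main q hq h2
  exact ⟨A, _, _, _, _, hA⟩

end Pool.Agent.Results.MP_394e0d_co.AllPrimePowersH53
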